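import Pool.Agent.Helper416.AR12

set_option autoImplicit false

/-!
ZFC: there is a compact scattered Hausdorff space which satisfies wD hereditarily and is not
bisequential.

The space is the one-point compactification of a locally compact, locally countable, first
countable scattered space whose points are triples (level in succ of the continuum, rank in
omega_1, branch in the Cantor set); see the modules `Pool.Agent.Helper416.AR1` to `AR12`.
-/

namespace Pool.Agent.Results.MP_88e59f_gt.HerWDNotBiseq

open Topology

/-- `X` is scattered: every nonempty subset `A` has a point which is isolated in `A`. -/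
def ScatteredSpace (X : Type) [TopologicalSpace X] : Prop :=
  ∀ A : Set X, A.Nonempty → ∃ x ∈ A, ∃ U : Set X, IsOpen U ∧ U ∩ A = {x}

/-- `Y` satisfies property wD: for every infinite closed discrete `E ⊆ Y` there are an infinite
`E' ⊆ E` and a family of open sets `U d ∋ d`, `d ∈ E'`, which is discrete: each point of `Y` has an
open neighbourhood meeting `U d` for at most one `d ∈ E'`. -/
def PropertyWD (Y : Type) [TopologicalSpace Y] : Prop :=
  ∀ E : Set Y, E.Infinite → IsClosed E → DiscreteTopology E →
    ∃ E' ⊆ E, E'.Infinite ∧ ∃ U : Y → Set Y,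
      (∀ d ∈ E', IsOpen (U d) ∧ d ∈ U d) ∧
      ∀ y : Y, ∃ O : Set Y, IsOpen O ∧ y ∈ O ∧
        ∀ d ∈ E', ∀ d' ∈ E', (U d ∩ O).Nonempty → (U d' ∩ O).Nonempty → d = d'

/-- `X` satisfies wD hereditarily: every subspace of `X` satisfies wD. -/
def HereditarilyWD (X : Type) [TopologicalSpace X] : Prop :=
  ∀ S : Set X, PropertyWD S

/-- `X` is bisequential: every ultrafilter `F` converging to a point `x` contains sets
`A 0 ⊇ A 1 ⊇ ...` such that every neighbourhood of `x` contains some `A n`. -/
def Bisequential (X : Type) [TopologicalSpace X] : Prop :=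
  ∀ (x : X) (F : Ultrafilter X), (F : Filter X) ≤ 𝓝 x →
    ∃ A : ℕ → Set X, Antitone A ∧ (∀ n, A n ∈ F) ∧ ∀ U ∈ 𝓝 x, ∃ n, A n ⊆ U

/-- There is a compact Hausdorff scattered space which satisfies wD hereditarily and is not
bisequential. -/
theorem result : ∃ (X : Type) (_ : TopologicalSpace X), CompactSpace X ∧ T2Space X ∧
    ScatteredSpace X ∧ HereditarilyWD X ∧ ¬ Bisequential X :=
  Pool.Agent.Helper416.AR.main_bi

end Pool.Agent.Results.MP_88e59f_gt.HerWDNotBiseq
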